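import Pool.Agent.Helper79.RP.HIL2

/-! RP: S_HIL. -/

namespace Pool.Agent.Helper79.RP

open NumberField Polynomial Module IsDedekindDomain Filter Topology
  Pool.Agent.Helper51.SigLeo Pool.Agent.Helper51.RP

section algebra

variable {K M H : Type} [Field K] [Field M] [Field H] [Algebra K M] [Algebra M H] [Algebra K H]

theorem nrm_fix {p : ℕ} {γ : H ≃ₐ[K] H} (hγ : γ ^ p = 1) (y : H) :
    γ (∏ j ∈ Finset.range p, (γ ^ j) y) = ∏ j ∈ Finset.range p, (γ ^ j) y := by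
  rcases eq_or_ne y 0 with rfl | hy
  · rcases Nat.eq_zero_or_pos p with rfl | hp
    · simp
    · have : ∏ j ∈ Finset.range p, (γ ^ j) (0 : H) = 0 :=
        Finset.prod_eq_zero (Finset.mem_range.2 hp) (map_zero _)
      rw [this, map_zero]
  · rw [map_prod]
    have h1 : ∀ j ∈ Finset.range p, γ ((γ ^ j) y) = (γ ^ (j + 1)) y := fun j _ => by
      rw [pow_succ', AlgEquiv.mul_apply]
    rw [Finset.prod_congr rfl h1]
    have h2 := Finset.prod_range_succ' (fun j => (γ ^ j) y) p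
    rw [Finset.prod_range_succ, hγ, pow_zero] at h2
    exact (mul_right_cancel₀ (by simpa using hy) h2).symm

omit [Algebra K M] in
theorem ext_pow {γ : H ≃ₐ[K] H} (hγM : ∀ x : M, γ (algebraMap M H x) = algebraMap M H x) (j : ℕ)
    (x : M) : (γ ^ j) (algebraMap M H x) = algebraMap M H x := by
  induction j with
  | zero => simp
  | succ j ih => rw [pow_succ, AlgEquiv.mul_apply, hγM, ih]

theorem ext_pow' {δ : M ≃ₐ[K] M} {δ' : H ≃ₐ[K] H}
    (hδM : ∀ x : M, δ' (algebraMap M H x) = algebraMap M H (δ x)) (j : ℕ)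
    (x : M) : (δ' ^ j) (algebraMap M H x) = algebraMap M H ((δ ^ j) x) := by
  induction j with
  | zero => simp
  | succ j ih => rw [pow_succ', AlgEquiv.mul_apply, ih, hδM, pow_succ', AlgEquiv.mul_apply]

theorem comm_pow {γ δ' : H ≃ₐ[K] H} (hc : ∀ y : H, γ (δ' y) = δ' (γ y)) (i j : ℕ) (y : H) :
    (γ ^ i) ((δ' ^ j) y) = (δ' ^ j) ((γ ^ i) y) := by
  have h1 : Commute γ δ' := by
    ext y
    exact hc y
  have h2 := h1.pow_pow i j
  exact DFunLike.congr_fun h2 y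

theorem polpart {p : ℕ} (hp : p.Prime) (P : (ZMod p)[X]) {δ : M ≃ₐ[K] M} {γ δ' : H ≃ₐ[K] H}
    (hγM : ∀ x : M, γ (algebraMap M H x) = algebraMap M H x) (hdeg : finrank M H = p)
    (hγo : orderOf γ = p) (hδM : ∀ x : M, δ' (algebraMap M H x) = algebraMap M H (δ x))
    (hc : ∀ y : H, γ (δ' y) = δ' (γ y)) {u y b : H} {x : Mˣ} (hy0 : y ≠ 0) (hb0 : b ≠ 0)
    (hy : γ y = u * y) (hx : algebraMap M H (x : M) = ∏ j ∈ Finset.range p, (γ ^ j) y)
    (hb : ∏ j ∈ Finset.range p, (γ ^ j) b = 1)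
    (hub : (∏ j ∈ P.support, ((δ' ^ j) u) ^ (P.coeff j).val) * b = γ b) :
    Pw p (pol P δ x) := by
  have hγ1 : γ ≠ 1 := by
    intro h
    rw [h, orderOf_one] at hγo
    exact hp.one_lt.ne hγo
  set y' : H := ∏ j ∈ P.support, ((δ' ^ j) y) ^ (P.coeff j).val with hy'
  have hy'0 : y' ≠ 0 := Finset.prod_ne_zero_iff.2 fun j _ =>
    pow_ne_zero _ ((_root_.map_ne_zero _).2 hy0)
  have h1 : γ y' = (∏ j ∈ P.support, ((δ' ^ j) u) ^ (P.coeff j).val) * y' := by
    rw [hy', map_prod, ← Finset.prod_mul_distrib]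
    refine Finset.prod_congr rfl fun j _ => ?_
    have h2 := comm_pow hc 1 j y
    rw [pow_one] at h2
    rw [map_pow, h2, hy, map_mul, mul_pow]
  have h2 : γ (y' / b) = y' / b := by
    rw [map_div₀, h1, ← hub]
    have h3 : (∏ j ∈ P.support, ((δ' ^ j) u) ^ (P.coeff j).val) ≠ 0 := by
      intro h
      rw [h, zero_mul] at hub
      exact hb0 ((_root_.map_eq_zero γ).1 hub.symm)
    rw [mul_div_mul_left _ _ h3]
  obtain ⟨c, hcc⟩ := fix_mem hp γ hγM hdeg hγ1 h2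
  have hc0 : c ≠ 0 := by
    rintro rfl
    rw [map_zero] at hcc
    exact div_ne_zero hy'0 hb0 hcc.symm
  have h3 : y' = algebraMap M H c * b := by rw [hcc, div_mul_cancel₀ _ hb0]
  refine ⟨Units.mk0 c hc0, ?_⟩
  apply Units.ext
  apply (algebraMap M H).injective
  rw [Units.val_pow_eq_pow_val, Units.val_mk0, map_pow]
  have h4 : ((pol P δ x : Mˣ) : M) = ∏ j ∈ P.support, ((δ ^ j) (x : M)) ^ (P.coeff j).val := by
    rw [pol, MonoidHom.finsetProd_apply, Units.coe_prod]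
    refine Finset.prod_congr rfl fun j _ => ?_
    rw [MonoidHom.pow_apply, Units.val_pow_eq_pow_val]
    rfl
  have h5 : algebraMap M H ((pol P δ x : Mˣ) : M) = ∏ i ∈ Finset.range p, (γ ^ i) y' := by
    rw [h4, map_prod]
    have h6 : ∀ j ∈ P.support, algebraMap M H (((δ ^ j) (x : M)) ^ (P.coeff j).val) =
        ∏ i ∈ Finset.range p, (γ ^ i) (((δ' ^ j) y) ^ (P.coeff j).val) := by
      intro j _
      rw [map_pow, ← ext_pow' hδM, hx, map_prod, ← Finset.prod_pow]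
      refine Finset.prod_congr rfl fun i _ => ?_
      rw [map_pow, comm_pow hc]
    rw [Finset.prod_congr rfl h6, Finset.prod_comm]
    refine Finset.prod_congr rfl fun i _ => ?_
    rw [hy', map_prod]
  rw [h5]
  have h7 : ∀ i ∈ Finset.range p, (γ ^ i) y' = algebraMap M H c * (γ ^ i) b := by
    intro i _
    rw [h3, map_mul, ext_pow hγM]
  rw [Finset.prod_congr rfl h7, Finset.prod_mul_distrib, hb, mul_one, Finset.prod_const,
    Finset.card_range]

end algebra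

section units

variable {K M H : Type} [Field K] [Field M] [Field H] [Algebra K M] [Algebra M H] [Algebra K H]

/-- the conjugates of a unit -/
noncomputable def UU (γ : H ≃ₐ[K] H) (u : (𝓞 H)ˣ) (l : ℕ) : (𝓞 H)ˣ :=
  ((unitsHom γ)^[l] (Additive.ofMul u)).toMul

theorem UU_coe (γ : H ≃ₐ[K] H) (u : (𝓞 H)ˣ) (l : ℕ) :
    ((UU γ u l : 𝓞 H) : H) = (γ ^ l) (u : H) := by
  induction l with
  | zero => rfl
  | succ l ih =>
    rw [pow_succ', AlgEquiv.mul_apply, ← ih, UU, Function.iterate_succ_apply']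
    rfl

/-- the cocycle of a unit -/
noncomputable def VV (γ : H ≃ₐ[K] H) (u : (𝓞 H)ˣ) (j : ℕ) : (𝓞 H)ˣ :=
  ∏ l ∈ Finset.range j, UU γ u l

theorem VV_coe (γ : H ≃ₐ[K] H) (u : (𝓞 H)ˣ) {y : H} (hy : γ y = (u : H) * y) (j : ℕ) :
    (γ ^ j) y = ((VV γ u j : 𝓞 H) : H) * y := by
  induction j with
  | zero => simp [VV]
  | succ j ih =>
    have e1 : VV γ u (j + 1) = VV γ u j * UU γ u j := Finset.prod_range_succ _ _
    have e2 : ((VV γ u (j + 1) : 𝓞 H) : H) = ((VV γ u j : 𝓞 H) : H) * ((UU γ u j : 𝓞 H) : H) := by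
      rw [e1, Units.val_mul]
      exact map_mul (algebraMap (𝓞 H) H) _ _
    rw [pow_succ, AlgEquiv.mul_apply, hy, map_mul, ih, e2, UU_coe]
    ring

omit [Algebra K M] in
theorem pthpow {p : ℕ} (hp : p.Prime) {γ : H ≃ₐ[K] H}
    (hγM : ∀ x : M, γ (algebraMap M H x) = algebraMap M H x) (u : (𝓞 H)ˣ) {y : H} (hy0 : y ≠ 0)
    (hy : γ y = (u : H) * y) {x : Mˣ}
    (hx : algebraMap M H (x : M) = ∏ j ∈ Finset.range p, (γ ^ j) y) (hw : Pw p x) :
    ∃ t : (𝓞 H)ˣ, ∏ j ∈ Finset.range p, (γ ^ j) (t : H) = 1 ∧ (u : H) * t = γ (t : H) := by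
  obtain ⟨w, hw⟩ := hw
  have hw0 : algebraMap M H (w : M) ≠ 0 := (_root_.map_ne_zero _).2 w.ne_zero
  set t : H := y / algebraMap M H (w : M) with ht
  have ht0 : t ≠ 0 := div_ne_zero hy0 hw0
  have h1 : γ t = (u : H) * t := by
    rw [ht, map_div₀, hγM, hy, mul_div_assoc]
  have h2 : ∏ j ∈ Finset.range p, (γ ^ j) t = 1 := by
    have h3 : ∀ j ∈ Finset.range p, (γ ^ j) t = (γ ^ j) y / algebraMap M H (w : M) := fun j _ => by
      rw [ht, map_div₀, ext_pow hγM]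
    rw [Finset.prod_congr rfl h3, Finset.prod_div_distrib, ← hx, Finset.prod_const,
      Finset.card_range, hw, Units.val_pow_eq_pow_val, map_pow, div_self (pow_ne_zero _ hw0)]
  set V : (𝓞 H)ˣ := ∏ j ∈ Finset.range p, VV γ u j with hV
  have h3 : ((V : 𝓞 H) : H) * t ^ p = 1 := by
    have e1 : ((V : 𝓞 H) : H) = ∏ j ∈ Finset.range p, ((VV γ u j : 𝓞 H) : H) := by
      rw [hV, Units.coe_prod]
      exact map_prod (algebraMap (𝓞 H) H) _ _
    rw [← h2, e1]
    have h4 : ∀ j ∈ Finset.range p, (γ ^ j) t = ((VV γ u j : 𝓞 H) : H) * t := fun j _ =>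
      VV_coe γ u h1 j
    rw [Finset.prod_congr rfl h4, Finset.prod_mul_distrib, Finset.prod_const, Finset.card_range]
  have hV1 : ((V : 𝓞 H) : H) * (((V⁻¹ : (𝓞 H)ˣ) : 𝓞 H) : H) = 1 := by
    rw [← map_mul, ← Units.val_mul, mul_inv_cancel, Units.val_one, map_one]
  have h5 : t ^ p = (((V⁻¹ : (𝓞 H)ˣ) : 𝓞 H) : H) := by
    have hV0 : ((V : 𝓞 H) : H) ≠ 0 := left_ne_zero_of_mul_eq_one h3
    apply mul_left_cancel₀ hV0
    rw [h3, hV1]
  have h6 : (t⁻¹) ^ p = ((V : 𝓞 H) : H) := by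
    rw [inv_pow]
    exact (eq_inv_of_mul_eq_one_left h3).symm
  have h7 : IsIntegral ℤ t := IsIntegral.of_pow hp.pos (by
    rw [h5]; exact ((V⁻¹ : (𝓞 H)ˣ) : 𝓞 H).2)
  have h8 : IsIntegral ℤ t⁻¹ := IsIntegral.of_pow hp.pos (by
    rw [h6]; exact (V : 𝓞 H).2)
  refine ⟨⟨⟨t, h7⟩, ⟨t⁻¹, h8⟩, ?_, ?_⟩, h2, h1.symm⟩
  · apply RingOfIntegers.ext
    exact mul_inv_cancel₀ ht0
  · apply RingOfIntegers.ext
    exact inv_mul_cancel₀ ht0

end units

theorem map_pow_ext {K H M₁ H₁ : Type} [Field K] [Field H] [Field M₁] [Field H₁] [Algebra K H]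
    [Algebra M₁ H₁] [Algebra H H₁] {γ : H ≃ₐ[K] H} {γ₁ : H₁ ≃ₐ[M₁] H₁}
    (hext : ∀ y : H, γ₁ (algebraMap H H₁ y) = algebraMap H H₁ (γ y)) (j : ℕ) (y : H) :
    (γ₁ ^ j) (algebraMap H H₁ y) = algebraMap H H₁ ((γ ^ j) y) := by
  induction j with
  | zero => simp
  | succ j ih => rw [pow_succ', AlgEquiv.mul_apply, ih, hext, pow_succ', AlgEquiv.mul_apply]

theorem s_hil (h1 : S_ROO) (h2 : S_RAM) (h3 : S_TAM) : S_HIL := by
  intro p hpf k _ _ _ _ hι L K M H M₁ H₁ _ _ _ _ _ _ _ _ _ _ _ _ _ _ _ _ _ m δ γ δ' γ₁ T ε a s P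
    hd u hu1 hu2 hu3 hu4
  have hp := hpf.out
  have hch : CharZero k := charZero_of_padic p
  have hγ1 : γ ≠ 1 := by
    intro h
    have := hd.γo
    rw [h, orderOf_one] at this
    exact hp.one_lt.ne this
  have hγp : γ ^ p = 1 := by
    have := pow_orderOf_eq_one γ
    rwa [hd.γo] at this
  obtain ⟨y, hy0, hy⟩ := hilbert90 hp.pos γ hd.γo (hu1 0)
  obtain ⟨x, hx⟩ := fix_mem hp γ hd.γM hd.degH hγ1 (nrm_fix hγp y)
  have hx0 : x ≠ 0 := by
    rintro rfl
    rw [map_zero] at hx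
    exact Finset.prod_ne_zero_iff.2 (fun j _ => (_root_.map_ne_zero (γ ^ j)).2 hy0) hx.symm
  have hprod : ∀ z : H, ∏ j ∈ Finset.range p, (γ₁ ^ j) (algebraMap H H₁ z) =
      algebraMap H H₁ (∏ j ∈ Finset.range p, (γ ^ j) z) := by
    intro z
    rw [map_prod]
    exact Finset.prod_congr rfl fun j _ => map_pow_ext hd.ext j z
  refine ⟨Units.mk0 x hx0, ⟨?_, ?_, ?_⟩, fun hw =>
    pthpow hp hd.γM (u 0) hy0 hy (x := Units.mk0 x hx0) hx hw⟩
  · obtain ⟨b, hb1, hb2⟩ := hu3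
    exact polpart hp P hd.γM hd.degH hd.γo hd.δM hd.comm hy0
      (RingOfIntegers.coe_ne_zero_iff.2 b.ne_zero) hy (x := Units.mk0 x hx0) hx hb1 hb2
  · intro W
    have hy1 : algebraMap H H₁ y ≠ 0 := (_root_.map_ne_zero _).2 hy0
    set y₁ : H₁ˣ := Units.mk0 (algebraMap H H₁ y) hy1 with hy₁
    have hx1 : algebraMap M₁ H₁ (algebraMap M M₁ x) = ∏ j ∈ Finset.range p, (γ₁ ^ j) (y₁ : H₁) := by
      rw [hy₁, Units.val_mk0, hprod, ← hx, hd.compat]
    refine ⟨fun h => ?_, fun h => ?_⟩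
    · refine h2 p M₁ H₁ ε a s γ₁ hd.prim hd.ne hd.adm hd.degH₁ hd.pow hd.γs y₁
        (Units.map (RingOfIntegers.mapRingHom (algebraMap H H₁)) (u 0)) (algebraMap M M₁ x) ?_ hx1
        W h
      rw [hy₁, Units.val_mk0, hd.ext, hy, map_mul]
      rfl
    · exact h3 p M₁ H₁ ε a s γ₁ hd.prim (RingOfIntegers.coe_ne_zero_iff.2 hd.ne) hd.degH₁ hd.pow
        hd.γs y₁ (algebraMap M M₁ x) hx1 W h
  · intro N
    obtain ⟨b, hb1, hb2⟩ := hu2 N
    have hb0 : (b : H) ≠ 0 := RingOfIntegers.coe_ne_zero_iff.2 b.ne_zero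
    have hy' : γ (y * b) = (u N : H) * (y * b) := by
      rw [map_mul, hy]
      calc (u 0 : H) * y * γ (b : H) = y * ((u 0 : H) * γ (b : H)) := by ring
        _ = y * ((u N : H) * b) := by rw [hb2]
        _ = _ := by ring
    have hyb : y * (b : H) ≠ 0 := mul_ne_zero hy0 hb0
    have hx' : algebraMap M H x = ∏ j ∈ Finset.range p, (γ ^ j) (y * (b : H)) := by
      have : ∀ j ∈ Finset.range p, (γ ^ j) (y * (b : H)) = (γ ^ j) y * (γ ^ j) (b : H) :=
        fun j _ => map_mul _ _ _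
      rw [Finset.prod_congr rfl this, Finset.prod_mul_distrib, hb1, mul_one, hx]
    have hyb1 : algebraMap H H₁ (y * (b : H)) ≠ 0 := (_root_.map_ne_zero _).2 hyb
    obtain ⟨c, hc⟩ := stepA h1 hι L M₁ H₁ γ₁ ε a s hd.prim hd.ne hd.adm hd.degH₁ hd.pow hd.γs
      (above (above T : Set (M →+* k)) : Set (M₁ →+* k)) N (Units.mk0 _ hyb1)
      (Units.map (algebraMap M M₁ : M →* M₁) (Units.mk0 x hx0)) (by
        rw [Units.val_mk0, hprod, ← hx', ← hd.compat]
        rfl)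
      (fun j => Units.map ((algebraMap H H₁).comp (algebraMap (𝓞 H) H) : 𝓞 H →* H₁) (VV γ (u N) j))
      (by
        intro j
        rw [Units.val_mk0, map_pow_ext hd.ext, VV_coe γ (u N) hy' j, map_mul]
        rfl)
      (by
        intro τ₀ hτ₀ j
        set τ : H →+* k := τ₀.comp (algebraMap H H₁) with hτ
        have hmem : τ ∈ (above (above T : Set (M →+* k)) : Set (H →+* k)) := by
          have e1 : τ.comp (algebraMap M H) =
              (τ₀.comp (algebraMap M₁ H₁)).comp (algebraMap M M₁) := by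
            ext z
            change τ₀ (algebraMap H H₁ (algebraMap M H z)) =
              τ₀ (algebraMap M₁ H₁ (algebraMap M M₁ z))
            rw [hd.compat]
          change τ.comp (algebraMap M H) ∈ (above T : Set (M →+* k))
          rw [e1]
          exact hτ₀
        have e2 : Units.map (τ₀ : H₁ →* k)
            (Units.map ((algebraMap H H₁).comp (algebraMap (𝓞 H) H) : 𝓞 H →* H₁) (VV γ (u N) j)) =
            ∏ l ∈ Finset.range j,
              Units.map (τ.comp (algebraMap (𝓞 H) H) : 𝓞 H →* k) (UU γ (u N) l) := by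
          rw [← map_prod]
          rfl
        rw [e2]
        refine Sm.prod _ _ fun l _ => ⟨norm_unit (p := p) τ (UU γ (u N) l), ?_⟩
        exact hu4 N l τ hmem)
    exact stepB hι L M M₁ hd.gal hd.cop (above T) N (Units.mk0 x hx0) c hc

end Pool.Agent.Helper79.RP
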