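import Pool.Agent.Helper51.RP.Goals1
import Pool.Agent.Helper51.SigLeo.Modulus

/-! RP: S_HIL, first part: tools. -/

namespace Pool.Agent.Helper79.RP

open NumberField Polynomial Module IsDedekindDomain Pool.Agent.Helper51.SigLeo
  Pool.Agent.Helper51.RP

/-! ### Extension of embeddings -/

theorem ext_emb {k : Type} [Field k] [CharZero k] (hι : Nonempty (AlgebraicClosure ℚ →+* k))
    {A B : Type} [Field A] [NumberField A] [Field B] [NumberField B] [Algebra A B] (τ : A →+* k) :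
    ∃ τ' : B →+* k, τ'.comp (algebraMap A B) = τ := by
  obtain ⟨ι⟩ := hι
  let _ : Algebra A k := τ.toAlgebra
  have hfin : FiniteDimensional A B := FiniteDimensional.right ℚ A B
  have key : ∀ s : B, IsIntegral A s ∧ ((minpoly A s).map (algebraMap A k)).Splits := by
    intro s
    refine ⟨Algebra.IsIntegral.isIntegral s, ?_⟩
    have h1 : minpoly A s ∣ (minpoly ℚ s).map (algebraMap ℚ A) :=
      minpoly.dvd_map_of_isScalarTower ℚ A s
    have h2 : (minpoly A s).map (algebraMap A k) ∣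
        ((minpoly ℚ s).map (algebraMap ℚ A)).map (algebraMap A k) := Polynomial.map_dvd _ h1
    have h3 : ((minpoly ℚ s).map (algebraMap ℚ A)).map (algebraMap A k) =
        ((minpoly ℚ s).map (algebraMap ℚ (AlgebraicClosure ℚ))).map ι := by
      rw [Polynomial.map_map, Polynomial.map_map]
      congr 1
      exact Subsingleton.elim _ _
    have h4 : (((minpoly ℚ s).map (algebraMap ℚ (AlgebraicClosure ℚ))).map ι).Splits :=
      (IsAlgClosed.splits _).map ι
    have h5 : ((minpoly ℚ s).map (algebraMap ℚ (AlgebraicClosure ℚ))).map ι ≠ 0 := by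
      rw [Polynomial.map_ne_zero_iff ι.injective, Polynomial.map_ne_zero_iff (RingHom.injective _)]
      exact minpoly.ne_zero (Algebra.IsIntegral.isIntegral s)
    rw [h3] at h2
    exact h4.of_dvd h5 h2
  obtain ⟨φ⟩ := IntermediateField.nonempty_algHom_of_splits (F := A) (E := B) (K := k) key
  exact ⟨φ.toRingHom, φ.comp_algebraMap⟩

/-! ### The logarithm -/

section log

variable {p : ℕ} [hp : Fact p.Prime] {k : Type} [NormedField k] [NormedAlgebra ℚ_[p] k]

theorem log_le [IsUltrametricDist k] (L : IwasawaLog p k) (u : kˣ)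
    (hu : ‖(u : k) - 1‖ ≤ (1 / p : ℝ)) : ‖L.toFun u‖ ≤ ‖(u : k) - 1‖ := by
  have hp2 : (2 : ℝ) ≤ p := by exact_mod_cast hp.out.two_le
  have hp1 : (1 / p : ℝ) ≤ 1 / 2 := one_div_le_one_div_of_le (by norm_num) hp2
  have hs := L.hasSum u (lt_of_le_of_lt hu (by linarith))
  set x : k := (u : k) - 1 with hx
  refine le_of_tendsto' (Filter.Tendsto.norm hs) fun t => ?_
  refine IsUltrametricDist.norm_sum_le_of_forall_le_of_nonneg (norm_nonneg _) fun n _ => ?_
  rw [norm_div, norm_mul, norm_pow, norm_neg, norm_one, one_pow, one_mul, norm_pow]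
  have h1 := one_div_le_norm_natCast p (k := k) (n + 1) (by omega)
  have h2 : ((n : k) + 1) = ((n + 1 : ℕ) : k) := by push_cast; ring
  rw [h2, div_le_iff₀ (lt_of_lt_of_le (by positivity) h1)]
  have h3 : ‖x‖ ^ n ≤ 1 / ((n + 1 : ℕ) : ℝ) := by
    calc ‖x‖ ^ n ≤ (1 / 2) ^ n := pow_le_pow_left₀ (norm_nonneg _) (hu.trans hp1) n
      _ ≤ 1 / ((n + 1 : ℕ) : ℝ) := by
        rw [one_div_pow]
        apply one_div_le_one_div_of_le (by positivity)
        have := one_add_mul_le_pow (a := (1 : ℝ)) (by norm_num) n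
        push_cast
        norm_num at this
        linarith
  calc ‖x‖ ^ (n + 1) = ‖x‖ * ‖x‖ ^ n := by ring
    _ ≤ ‖x‖ * ‖((n + 1 : ℕ) : k)‖ := mul_le_mul_of_nonneg_left (h3.trans h1) (norm_nonneg _)

/-- norm one and small logarithm -/
def Sm (L : IwasawaLog p k) (N : ℕ) (z : kˣ) : Prop :=
  ‖(z : k)‖ = 1 ∧ ‖L.toFun z‖ ≤ (1 / p : ℝ) ^ N

omit hp [NormedAlgebra ℚ_[p] k] in
theorem log_one (L : IwasawaLog p k) : L.toFun 1 = 0 := by
  have := L.map_mul 1 1
  rw [mul_one] at this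
  simpa using this

omit hp [NormedAlgebra ℚ_[p] k] in
theorem Sm.one (L : IwasawaLog p k) (N : ℕ) : Sm L N 1 := by
  refine ⟨by simp, ?_⟩
  rw [log_one, norm_zero]
  positivity

omit hp [NormedAlgebra ℚ_[p] k] in
theorem Sm.mul [IsUltrametricDist k] {L : IwasawaLog p k} {N : ℕ} {z w : kˣ} (hz : Sm L N z)
    (hw : Sm L N w) : Sm L N (z * w) := by
  refine ⟨by rw [Units.val_mul, norm_mul, hz.1, hw.1, one_mul], ?_⟩
  rw [L.map_mul]
  exact (IsUltrametricDist.norm_add_le_max _ _).trans (max_le hz.2 hw.2)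

omit hp [NormedAlgebra ℚ_[p] k] in
theorem Sm.prod [IsUltrametricDist k] {L : IwasawaLog p k} {N : ℕ} {ι : Type*} (t : Finset ι)
    (z : ι → kˣ) (hz : ∀ i ∈ t, Sm L N (z i)) : Sm L N (∏ i ∈ t, z i) := by
  classical
  induction t using Finset.induction_on with
  | empty => rw [Finset.prod_empty]; exact Sm.one L N
  | insert i t hi ih =>
    rw [Finset.prod_insert hi]
    exact (hz i (Finset.mem_insert_self _ _)).mul
      (ih fun j hj => hz j (Finset.mem_insert_of_mem hj))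

omit hp [NormedAlgebra ℚ_[p] k] in
theorem Sm.pow [IsUltrametricDist k] {L : IwasawaLog p k} {N : ℕ} {z : kˣ} (hz : Sm L N z)
    (n : ℕ) : Sm L N (z ^ n) := by
  induction n with
  | zero => rw [pow_zero]; exact Sm.one L N
  | succ n ih => rw [pow_succ]; exact ih.mul hz

theorem Sm.of_close [IsUltrametricDist k] (L : IwasawaLog p k) {N : ℕ} {z : kˣ}
    (hz : ‖(z : k) - 1‖ ≤ (1 / p : ℝ) ^ (N + 1)) : Sm L N z := by
  have hp2 : (2 : ℝ) ≤ p := by exact_mod_cast hp.out.two_le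
  have hp0 : (0 : ℝ) ≤ 1 / p := by positivity
  have hp1 : (1 / p : ℝ) ≤ 1 / 2 := one_div_le_one_div_of_le (by norm_num) hp2
  have h1 : (1 / p : ℝ) ^ (N + 1) ≤ 1 / p := by
    calc (1 / p : ℝ) ^ (N + 1) = (1 / p) ^ N * (1 / p) := pow_succ _ _
      _ ≤ 1 * (1 / p) := mul_le_mul_of_nonneg_right (pow_le_one₀ hp0 (by linarith)) hp0
      _ = 1 / p := one_mul _
  have h2 : ‖(z : k) - 1‖ < 1 := by linarith
  refine ⟨?_, ?_⟩
  · have h3 : (z : k) = 1 + ((z : k) - 1) := by ring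
    rw [h3]
    have h4 := IsUltrametricDist.norm_add_eq_max_of_norm_ne_norm
      (x := (1 : k)) (y := (z : k) - 1) (by rw [norm_one]; exact h2.ne')
    rw [h4, norm_one]
    exact max_eq_left h2.le
  · refine (log_le L z (hz.trans h1)).trans (hz.trans ?_)
    exact pow_le_pow_of_le_one hp0 (by linarith) (Nat.le_succ N)

include hp in
theorem norm_unit [IsUltrametricDist k] {F : Type} [Field F] (ψ : F →+* k) (u : (𝓞 F)ˣ) :
    ‖ψ ((u : 𝓞 F) : F)‖ = 1 := by
  have h1 : ‖ψ ((u : 𝓞 F) : F)‖ ≤ 1 := norm_map_le_one p ψ (u : 𝓞 F).2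
  have h2 : ‖ψ (((u⁻¹ : (𝓞 F)ˣ) : 𝓞 F) : F)‖ ≤ 1 := norm_map_le_one p ψ ((u⁻¹ : (𝓞 F)ˣ) : 𝓞 F).2
  have h3 : ψ ((u : 𝓞 F) : F) * ψ (((u⁻¹ : (𝓞 F)ˣ) : 𝓞 F) : F) = 1 := by
    rw [← map_mul, ← map_mul, ← Units.val_mul, mul_inv_cancel, Units.val_one, map_one, map_one]
  have h4 : ‖ψ ((u : 𝓞 F) : F)‖ * ‖ψ (((u⁻¹ : (𝓞 F)ˣ) : 𝓞 F) : F)‖ = 1 := by
    rw [← norm_mul, h3, norm_one]
  nlinarith [norm_nonneg (ψ ((u : 𝓞 F) : F)), norm_nonneg (ψ (((u⁻¹ : (𝓞 F)ˣ) : 𝓞 F) : F))]

end log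

/-! ### Galois theory -/

section gal

variable {K M H : Type} [Field K] [Field M] [Field H] [Algebra K H] [Algebra M H]

theorem fix_mem {p : ℕ} (hp : p.Prime) (γ : H ≃ₐ[K] H) (hγM : ∀ x : M, γ (algebraMap M H x) =
    algebraMap M H x) (hdeg : finrank M H = p) (hγ : γ ≠ 1) {y : H} (hy : γ y = y) :
    ∃ x : M, algebraMap M H x = y := by
  have hfin : FiniteDimensional M H := FiniteDimensional.of_finrank_pos (by
    rw [hdeg]; exact hp.pos)
  let g : H ≃ₐ[M] H := AlgEquiv.ofRingEquiv (f := (γ : H ≃+* H)) hγM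
  have hg : ∀ z, g z = γ z := fun z => rfl
  let F : IntermediateField M H := IntermediateField.fixedField (Subgroup.zpowers g)
  have hmem : ∀ z : H, g z = z → z ∈ F := by
    intro z hz
    have h1 : Subgroup.zpowers g ≤ MulAction.stabilizer (H ≃ₐ[M] H) z := by
      rw [Subgroup.zpowers_le]
      exact hz
    intro m
    exact h1 m.2
  have hdvd : finrank M F ∣ p := by
    rw [← hdeg, ← Module.finrank_mul_finrank M F H]
    exact dvd_mul_right _ _
  rcases (Nat.dvd_prime hp).1 hdvd with h1 | h1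
  · have h2 : F = ⊥ := IntermediateField.finrank_eq_one_iff.1 h1
    have h3 := hmem y hy
    rw [h2, IntermediateField.mem_bot] at h3
    exact h3
  · exfalso
    have h2 : finrank F H = 1 := by
      have h3 := Module.finrank_mul_finrank M F H
      rw [h1, hdeg] at h3
      exact Nat.eq_of_mul_eq_mul_left hp.pos (by rw [h3, mul_one])
    have h3 : F = ⊤ := IntermediateField.finrank_eq_one_iff_eq_top.1 h2
    apply hγ
    ext z
    have h4 : z ∈ F := by rw [h3]; trivial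
    exact h4 ⟨g, Subgroup.mem_zpowers g⟩

/-- Hilbert 90 -/
theorem hilbert90 {p : ℕ} (hp : 0 < p) (γ : H ≃ₐ[K] H) (hγ : orderOf γ = p) {u : H}
    (hu : ∏ j ∈ Finset.range p, (γ ^ j) u = 1) : ∃ y : H, y ≠ 0 ∧ γ y = u * y := by
  classical
  let c : ℕ → H := fun j => ∏ i ∈ Finset.range j, (γ ^ i) u
  have hc0 : c 0 = 1 := by simp [c]
  have hcp : c p = 1 := hu
  have hcs : ∀ j, u * γ (c j) = c (j + 1) := by
    intro j
    simp only [c]
    rw [map_prod, Finset.prod_range_succ', mul_comm]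
    congr 1
    exact Finset.prod_congr rfl fun x _ => by rw [pow_succ', AlgEquiv.mul_apply]
  let f : Fin p → (H →* H) := fun j => ((γ ^ (j : ℕ) : H ≃ₐ[K] H) : H →+* H)
  have hf : Function.Injective f := by
    intro i j hij
    have h1 : γ ^ (i : ℕ) = γ ^ (j : ℕ) := by
      ext z
      exact DFunLike.congr_fun hij z
    have h2 := pow_inj_mod.1 h1
    rw [hγ, Nat.mod_eq_of_lt i.2, Nat.mod_eq_of_lt j.2] at h2
    exact Fin.ext h2
  have hli := (linearIndependent_monoidHom H H).comp f hf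
  rw [Fintype.linearIndependent_iff] at hli
  have hex : ∃ z : H, ∑ j ∈ Finset.range p, c j * (γ ^ j) z ≠ 0 := by
    by_contra hcon
    push Not at hcon
    have h1 := hli (fun j => c j) (by
      funext z
      rw [Finset.sum_apply]
      have h2 := hcon z
      rw [← Fin.sum_univ_eq_sum_range (fun j => c j * (γ ^ j) z)] at h2
      exact h2) ⟨0, hp⟩
    rw [hc0] at h1
    exact one_ne_zero h1
  obtain ⟨z, hz⟩ := hex
  set R : H := ∑ j ∈ Finset.range p, c j * (γ ^ j) z with hR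
  have hγR : u * γ R = R := by
    rw [hR, map_sum, Finset.mul_sum]
    have h1 : ∀ j ∈ Finset.range p, u * γ (c j * (γ ^ j) z) = c (j + 1) * (γ ^ (j + 1)) z := by
      intro j _
      rw [map_mul, ← mul_assoc, hcs, pow_succ', AlgEquiv.mul_apply]
    rw [Finset.sum_congr rfl h1]
    have h2 := Finset.sum_range_succ' (fun j => c j * (γ ^ j) z) p
    have h3 := Finset.sum_range_succ (fun j => c j * (γ ^ j) z) p
    rw [h3] at h2
    have h4 : γ ^ p = 1 := by rw [← hγ]; exact pow_orderOf_eq_one γ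
    rw [hcp, h4, hc0, pow_zero] at h2
    exact (add_right_cancel h2).symm
  refine ⟨R⁻¹, inv_ne_zero hz, ?_⟩
  have hu0 : u ≠ 0 := by
    rintro rfl
    rw [zero_mul] at hγR
    exact hz hγR.symm
  rw [map_inv₀]
  have h5 : γ R ≠ 0 := by
    intro h
    rw [h, mul_zero] at hγR
    exact hz hγR.symm
  calc (γ R)⁻¹ = u * (u * γ R)⁻¹ := by field_simp
    _ = u * R⁻¹ := by rw [hγR]

end gal

end Pool.Agent.Helper79.RP
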