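import Pool.Agent.Helper79.RP.HIL1

/-! RP: S_HIL, second part: the condition at the places above `p`. -/

namespace Pool.Agent.Helper79.RP

open NumberField Polynomial Module IsDedekindDomain Filter Topology
  Pool.Agent.Helper51.SigLeo Pool.Agent.Helper51.RP

theorem gen {M H : Type} [Field M] [Field H] [Algebra M H] {p : ℕ} (hp : p.Prime) (ε : M) (s : H)
    (γ : H ≃ₐ[M] H) (hε : IsPrimitiveRoot ε p) (hs : s ≠ 0) (hdeg : finrank M H = p)
    (hγ : γ s = algebraMap M H ε * s) (y : H) : ∃ q : M[X], aeval s q = y := by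
  have hfin : FiniteDimensional M H := FiniteDimensional.of_finrank_pos (by
    rw [hdeg]; exact hp.pos)
  have hdvd : finrank M (IntermediateField.adjoin M {s}) ∣ p := by
    rw [← hdeg, ← Module.finrank_mul_finrank M (IntermediateField.adjoin M {s}) H]
    exact dvd_mul_right _ _
  rcases (Nat.dvd_prime hp).1 hdvd with h1 | h1
  · exfalso
    have h2 : IntermediateField.adjoin M {s} = ⊥ := IntermediateField.finrank_eq_one_iff.1 h1
    have h3 : s ∈ IntermediateField.adjoin M {s} := IntermediateField.mem_adjoin_simple_self M s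
    rw [h2, IntermediateField.mem_bot] at h3
    obtain ⟨m, hm⟩ := h3
    have h4 : γ s = s := by rw [← hm, AlgEquiv.commutes]
    rw [h4] at hγ
    have h5 : algebraMap M H ε = 1 := by
      have : (algebraMap M H ε - 1) * s = 0 := by rw [sub_mul, ← hγ, one_mul, sub_self]
      rcases mul_eq_zero.1 this with h | h
      · exact sub_eq_zero.1 h
      · exact absurd h hs
    have h6 : ε = 1 := (algebraMap M H).injective (by rw [h5, map_one])
    exact hε.ne_one hp.one_lt h6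
  · have h2 : finrank (IntermediateField.adjoin M {s}) H = 1 := by
      have h3 := Module.finrank_mul_finrank M (IntermediateField.adjoin M {s}) H
      rw [h1, hdeg] at h3
      exact Nat.eq_of_mul_eq_mul_left hp.pos (by rw [h3, mul_one])
    have h3 : IntermediateField.adjoin M {s} = ⊤ := IntermediateField.finrank_eq_one_iff_eq_top.1 h2
    have h4 : y ∈ (IntermediateField.adjoin M {s}).toSubalgebra := by rw [h3]; trivial
    rw [IntermediateField.adjoin_simple_toSubalgebra_of_isAlgebraic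
      (Algebra.IsAlgebraic.isAlgebraic s), Algebra.adjoin_singleton_eq_range_aeval] at h4
    exact h4

section stepA

variable {p : ℕ} [hp : Fact p.Prime] {k : Type} [NormedField k] [NormedAlgebra ℚ_[p] k]
  [IsUltrametricDist k]

theorem norm_of_dvd {F : Type} [Field F] (τ : F →+* k) {N : ℕ} {z : 𝓞 F}
    (hz : (p : 𝓞 F) ^ N ∣ z) : ‖τ (z : F)‖ ≤ (1 / p : ℝ) ^ N := by
  obtain ⟨e, rfl⟩ := hz
  have h1 : ‖τ (e : F)‖ ≤ 1 := norm_map_le_one p τ e.2
  have h2 : ‖(p : k)‖ = 1 / p := by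
    rw [norm_natCast_eq p, Padic.norm_p, one_div]
  have h3 : τ (((p : 𝓞 F) ^ N * e : 𝓞 F) : F) = (p : k) ^ N * τ (e : F) := by
    simp only [map_mul, map_pow, map_natCast]
  rw [h3, norm_mul, norm_pow, h2]
  calc (1 / p : ℝ) ^ N * ‖τ (e : F)‖ ≤ (1 / p : ℝ) ^ N * 1 := by gcongr
    _ = _ := mul_one _

theorem lim_root [CompleteSpace k] {F : Type} [Field F] (τ : F →+* k) (a : 𝓞 F) (s : ℕ → 𝓞 F)
    (h1 : ∀ N, (p : 𝓞 F) ^ N ∣ s N ^ p - a) (h2 : ∀ N, (p : 𝓞 F) ^ N ∣ s (N + 1) - s N) :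
    ∃ ℓ : k, Tendsto (fun j => τ (s j : F)) atTop (𝓝 ℓ) ∧ ℓ ^ p = τ (a : F) := by
  have hp2 : (2 : ℝ) ≤ p := by exact_mod_cast hp.out.two_le
  have hp1 : (1 / p : ℝ) ≤ 1 / 2 := one_div_le_one_div_of_le (by norm_num) hp2
  have hlt : (1 / p : ℝ) < 1 := by linarith
  have hp0 : (0 : ℝ) ≤ 1 / p := by positivity
  have hc : CauchySeq (fun j => τ (s j : F)) := by
    refine cauchySeq_of_le_geometric (1 / p : ℝ) 1 hlt fun n => ?_
    rw [dist_comm, dist_eq_norm, one_mul]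
    have h3 := norm_of_dvd τ (h2 n)
    have h4 : τ ((s (n + 1) - s n : 𝓞 F) : F) = τ (s (n + 1) : F) - τ (s n : F) := by
      simp only [map_sub]
    rwa [h4] at h3
  obtain ⟨ℓ, hℓ⟩ := cauchySeq_tendsto_of_complete hc
  refine ⟨ℓ, hℓ, ?_⟩
  have h4 : Tendsto (fun j => τ (s j : F) ^ p) atTop (𝓝 (ℓ ^ p)) := hℓ.pow p
  have h5 : Tendsto (fun j => τ (s j : F) ^ p) atTop (𝓝 (τ (a : F))) := by
    rw [tendsto_iff_norm_sub_tendsto_zero]
    refine squeeze_zero (fun _ => norm_nonneg _) (fun j => ?_)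
      (tendsto_pow_atTop_nhds_zero_of_lt_one hp0 hlt)
    have h3 := norm_of_dvd τ (h1 j)
    have h6 : τ ((s j ^ p - a : 𝓞 F) : F) = τ (s j : F) ^ p - τ (a : F) := by
      simp only [map_sub, map_pow]
    rwa [h6] at h3
  exact tendsto_nhds_unique h4 h5

omit [NormedAlgebra ℚ_[p] k] [IsUltrametricDist k] in
theorem choose_ext [CharZero k] (hι : Nonempty (AlgebraicClosure ℚ →+* k)) {M H : Type} [Field M]
    [NumberField M] [Field H] [NumberField H] [Algebra M H] (γ : H ≃ₐ[M] H) (ε : M) (a : 𝓞 M)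
    (s : H) (hε : IsPrimitiveRoot ε p) (ha : a ≠ 0) (hs : s ^ p = algebraMap M H a)
    (hγ : γ s = algebraMap M H ε * s) (τ : M →+* k) (ℓ : k) (hℓ : ℓ ^ p = τ (a : M)) :
    ∃ τ₀ : H →+* k, τ₀.comp (algebraMap M H) = τ ∧ τ₀ s = ℓ := by
  obtain ⟨τ', hτ'⟩ := ext_emb hι (B := H) τ
  have haM : (a : M) ≠ 0 := RingOfIntegers.coe_ne_zero_iff.2 ha
  have h1 : τ' s ^ p = τ (a : M) := by
    rw [← map_pow, hs, ← hτ']; rfl
  have h2 : τ' s ≠ 0 := by
    intro h
    rw [h, zero_pow hp.out.ne_zero] at h1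
    exact haM (τ.injective (by rw [← h1, map_zero]))
  have h3 : (ℓ / τ' s) ^ p = 1 := by
    rw [div_pow, hℓ, h1, div_self]
    rw [← h1]; exact pow_ne_zero _ h2
  have h4 : IsPrimitiveRoot (τ ε) p := hε.map_of_injective τ.injective
  obtain ⟨i, _, hi⟩ := h4.eq_pow_of_pow_eq_one h3
  have h5 : ∀ i : ℕ, (γ ^ i) s = algebraMap M H ε ^ i * s := by
    intro i
    induction i with
    | zero => simp
    | succ i ih =>
      rw [pow_succ', AlgEquiv.mul_apply, ih, map_mul, map_pow, AlgEquiv.commutes, hγ, pow_succ]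
      ring
  refine ⟨τ'.comp ((γ ^ i : H ≃ₐ[M] H) : H →+* H), ?_, ?_⟩
  · ext m
    have : ((γ ^ i : H ≃ₐ[M] H) : H →+* H) (algebraMap M H m) = algebraMap M H m :=
      AlgEquiv.commutes _ _
    rw [RingHom.comp_apply, RingHom.comp_apply, this, ← hτ']; rfl
  · have h6 : ((γ ^ i : H ≃ₐ[M] H) : H →+* H) s = algebraMap M H ε ^ i * s := h5 i
    rw [RingHom.comp_apply, h6, map_mul, map_pow]
    have h7 : τ' (algebraMap M H ε) = τ ε := by rw [← hτ']; rfl
    rw [h7, hi, div_mul_cancel₀ _ h2]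

theorem stepA [CompleteSpace k] (h1 : S_ROO) (hι : Nonempty (AlgebraicClosure ℚ →+* k))
    (L : IwasawaLog p k) (M H : Type) [Field M]
    [NumberField M] [Field H] [NumberField H] [Algebra M H] (γ : H ≃ₐ[M] H) (ε : M) (a : 𝓞 M)
    (s : H) (hε : IsPrimitiveRoot ε p) (ha : a ≠ 0) (hadm : (p : 𝓞 M) ^ 3 ∣ a - 1)
    (hdeg : finrank M H = p) (hs : s ^ p = algebraMap M H a)
    (hγ : γ s = algebraMap M H ε * s) (T : Set (M →+* k)) (N : ℕ) (y : Hˣ) (x : Mˣ)
    (hx : algebraMap M H (x : M) = ∏ j ∈ Finset.range p, (γ ^ j) (y : H)) (v : ℕ → Hˣ)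
    (hv : ∀ j, (γ ^ j) (y : H) = (v j : H) * y)
    (hvs : ∀ τ₀ : H →+* k, τ₀.comp (algebraMap M H) ∈ T → ∀ j,
      Sm L N (Units.map (τ₀ : H →* k) (v j))) :
    ∃ c : Mˣ, ∀ τ ∈ T, Sm L N (Units.map (τ : M →* k) (x * c ^ p)) := by
  classical
  have hch : CharZero k := charZero_of_padic p
  rcases T.eq_empty_or_nonempty with hT | ⟨τ₁, hτ₁⟩
  · exact ⟨1, fun τ hτ => by rw [hT] at hτ; exact hτ.elim⟩
  obtain ⟨r, hr1, hr2, -⟩ := h1 p M a hadm
  have haM : (a : M) ≠ 0 := RingOfIntegers.coe_ne_zero_iff.2 ha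
  have hs0 : s ≠ 0 := by
    rintro rfl
    rw [zero_pow hp.out.ne_zero] at hs
    exact haM ((algebraMap M H).injective (by rw [map_zero]; exact hs.symm))
  obtain ⟨q, hq⟩ := gen hp.out ε s γ hε hs0 hdeg hγ (y : H)
  have hlim : ∀ τ : M →+* k, ∃ ℓ : k, Tendsto (fun j => τ (r j : M)) atTop (𝓝 ℓ) ∧
      ℓ ^ p = τ (a : M) := fun τ => lim_root τ a r hr1 hr2
  choose ℓ hℓ1 hℓ2 using hlim
  choose f hf1 hf2 using fun τ => choose_ext hι γ ε a s hε ha hs hγ τ (ℓ τ) (hℓ2 τ)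
  have hconv : ∀ τ : M →+* k, Tendsto (fun j => τ (q.eval (r j : M))) atTop (𝓝 (f τ (y : H))) := by
    intro τ
    have e1 : ∀ j, τ (q.eval (r j : M)) = q.eval₂ τ (τ (r j : M)) := fun j =>
      (Polynomial.eval₂_at_apply τ (r j : M)).symm
    have e2 : f τ (y : H) = q.eval₂ τ (ℓ τ) := by
      rw [← hq, Polynomial.aeval_def, Polynomial.hom_eval₂, hf1, hf2]
    simp_rw [e1]
    rw [e2]
    exact ((Polynomial.continuous_eval₂ q τ).tendsto (ℓ τ)).comp (hℓ1 τ)
  have hfy : ∀ τ, f τ (y : H) ≠ 0 := fun τ => by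
    exact (_root_.map_ne_zero (f τ)).2 y.ne_zero
  have hev : ∀ᶠ j in atTop, ∀ τ : M →+* k, τ (q.eval (r j : M)) ≠ 0 ∧
      ‖f τ (y : H) / τ (q.eval (r j : M)) - 1‖ ≤ (1 / p : ℝ) ^ (N + 1) := by
    rw [Filter.eventually_all]
    intro τ
    have e1 := (hconv τ).eventually_ne (hfy τ)
    have e2 : Tendsto (fun j => f τ (y : H) / τ (q.eval (r j : M)) - 1) atTop (𝓝 0) := by
      have e3 := (tendsto_const_nhds (x := f τ (y : H))).div (hconv τ) (hfy τ)
      rw [div_self (hfy τ)] at e3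
      have e4 := e3.sub_const 1
      rwa [sub_self] at e4
    have hpos : (0 : ℝ) < (1 / p : ℝ) ^ (N + 1) := by
      have := hp.out.pos
      positivity
    have e5 : ∀ᶠ j in atTop, ‖f τ (y : H) / τ (q.eval (r j : M)) - 1‖ < (1 / p : ℝ) ^ (N + 1) := by
      have e6 := e2.norm
      rw [norm_zero] at e6
      exact e6.eventually_lt_const hpos
    filter_upwards [e1, e5] with j h2 h3
    exact ⟨h2, h3.le⟩
  obtain ⟨j, hj⟩ := hev.exists
  have hne : q.eval (r j : M) ≠ 0 := by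
    intro h
    apply (hj τ₁).1
    rw [h, map_zero]
  refine ⟨(Units.mk0 _ hne)⁻¹, fun τ hτ => ?_⟩
  have hb := (hj τ).2
  set z : kˣ := Units.map (f τ : H →* k) y * Units.map (τ : M →* k) (Units.mk0 _ hne)⁻¹ with hz
  have hzv : (z : k) = f τ (y : H) / τ (q.eval (r j : M)) := by
    rw [hz, Units.val_mul, map_inv, Units.val_inv_eq_inv_val, div_eq_mul_inv]
    rfl
  have hSz : Sm L N z := Sm.of_close L (by rw [hzv]; exact hb)
  have hSv : Sm L N (∏ j ∈ Finset.range p, Units.map (f τ : H →* k) (v j)) :=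
    Sm.prod _ _ fun j _ => hvs (f τ) (by rw [hf1]; exact hτ) j
  have hfin := hSv.mul (hSz.pow p)
  have heq : Units.map (τ : M →* k) (x * (Units.mk0 _ hne)⁻¹ ^ p) =
      (∏ j ∈ Finset.range p, Units.map (f τ : H →* k) (v j)) * z ^ p := by
    have e1 : Units.map (τ : M →* k) x =
        (∏ j ∈ Finset.range p, Units.map (f τ : H →* k) (v j)) *
          Units.map (f τ : H →* k) y ^ p := by
      apply Units.ext
      have e2 : ((Units.map (τ : M →* k) x : kˣ) : k) = f τ (algebraMap M H (x : M)) := by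
        rw [← RingHom.comp_apply, hf1]; rfl
      rw [e2, hx, map_prod, Units.val_mul, Units.coe_prod, Units.val_pow_eq_pow_val,
        ← Finset.card_range p, ← Finset.prod_const, Finset.card_range, ← Finset.prod_mul_distrib]
      refine Finset.prod_congr rfl fun j _ => ?_
      rw [hv, map_mul]
      rfl
    rw [map_mul, map_pow, e1, hz, mul_pow, mul_assoc]
  rw [heq]
  exact hfin

omit [NormedAlgebra ℚ_[p] k] in
theorem stepB [CharZero k] (hι : Nonempty (AlgebraicClosure ℚ →+* k))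
    (L : IwasawaLog p k) (M M₁ : Type) [Field M] [NumberField M] [Field M₁] [NumberField M₁]
    [Algebra M M₁] (hgal : IsGalois M M₁) (hcop : (finrank M M₁).Coprime p) (T : Set (M →+* k))
    (N : ℕ) (x : Mˣ) (c : M₁ˣ)
    (hc : ∀ τ ∈ (above T : Set (M₁ →+* k)), Sm L N (Units.map (τ : M₁ →* k)
      (Units.map (algebraMap M M₁ : M →* M₁) x * c ^ p))) :
    ∃ y : Mˣ, ∀ τ ∈ T, Sm L N (Units.map (τ : M →* k) (x * y ^ p)) := by
  classical
  have hfin : FiniteDimensional M M₁ := FiniteDimensional.right ℚ M M₁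
  obtain ⟨n, hn⟩ := Nat.exists_mul_mod_eq_one_of_coprime hcop hp.out.one_lt
  have hn' : ∃ n', finrank M M₁ * n = 1 + p * n' := by
    refine ⟨finrank M M₁ * n / p, ?_⟩
    have := Nat.div_add_mod (finrank M M₁ * n) p
    omega
  obtain ⟨n', hn'⟩ := hn'
  set z : M₁ˣ := Units.map (algebraMap M M₁ : M →* M₁) x * c ^ p with hz
  let Nm : M₁ˣ →* Mˣ := Units.map (Algebra.norm M : M₁ →* M)
  have hNz : Nm z = x ^ finrank M M₁ * Nm c ^ p := by
    rw [hz, map_mul, map_pow]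
    congr 1
    apply Units.ext
    change Algebra.norm M (algebraMap M M₁ (x : M)) = _
    rw [Algebra.norm_algebraMap, Units.val_pow_eq_pow_val]
  refine ⟨x ^ n' * Nm c ^ n, fun τ hτ => ?_⟩
  obtain ⟨τ', hτ'⟩ := ext_emb hι (B := M₁) τ
  have h1 : Units.map (τ : M →* k) (Nm z) = ∏ σ : M₁ ≃ₐ[M] M₁,
      Units.map ((τ'.comp (σ : M₁ →+* M₁) : M₁ →+* k) : M₁ →* k) z := by
    apply Units.ext
    rw [Units.coe_prod]
    change τ (Algebra.norm M (z : M₁)) = ∏ σ : M₁ ≃ₐ[M] M₁, τ' (σ (z : M₁))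
    rw [← hτ', RingHom.comp_apply, Algebra.norm_eq_prod_automorphisms, map_prod]
  have h2 : Sm L N (Units.map (τ : M →* k) (Nm z)) := by
    rw [h1]
    refine Sm.prod _ _ fun σ _ => hc _ ?_
    change (τ'.comp (σ : M₁ →+* M₁)).comp (algebraMap M M₁) ∈ T
    have h3 : (τ'.comp (σ : M₁ →+* M₁)).comp (algebraMap M M₁) = τ := by
      rw [← hτ']
      ext m
      change τ' (σ (algebraMap M M₁ m)) = τ' (algebraMap M M₁ m)
      rw [AlgEquiv.commutes]
    rw [h3]; exact hτ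
  have h4 : x * (x ^ n' * Nm c ^ n) ^ p = Nm z ^ n := by
    rw [hNz, mul_pow, mul_pow, ← pow_mul, ← pow_mul, ← pow_mul, ← pow_mul, hn', pow_add, pow_one,
      mul_comm n' p, mul_comm n p, mul_assoc]
  rw [h4, map_pow]
  exact h2.pow n

end stepA

end Pool.Agent.Helper79.RP
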